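import Mathlib

set_option autoImplicit false

universe u

namespace Pool.Agent.H.MP_4104ad_al

open IsLocalRing

/-- The depth of a module `M` over a local ring `A`: `∞` for the zero module, and otherwise the
supremum of the lengths of the `M`-regular sequences of elements of the maximal ideal. -/
noncomputable def depth (A : Type u) [CommRing A] [IsLocalRing A] (M : Type u) [AddCommGroup M]
    [Module A M] : ℕ∞ :=
  by
    classical
    exact if Subsingleton M then ⊤ else
      ⨆ (rs : List A) (_ : ∀ r ∈ rs, r ∈ maximalIdeal A)
        (_ : RingTheory.Sequence.IsRegular M rs), (rs.length : ℕ∞)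

/-- `M` belongs to `C(R)`: it is finitely generated and `depth M_p ≥ depth R_p` for all primes. -/
def InC (R : Type u) [CommRing R] (M : ModuleCat.{u} R) : Prop :=
  Module.Finite R M ∧ ∀ (p : Ideal R) [p.IsPrime],
    depth (Localization.AtPrime p) (Localization.AtPrime p) ≤
      depth (Localization.AtPrime p) (LocalizedModule p.primeCompl M)

/-- `a` belongs to the stable annihilator of `M`: multiplication by `a` on `M` factors through a
(finitely generated) projective module. -/
def InStableAnn (R : Type u) [CommRing R] (M : ModuleCat.{u} R) (a : R) : Prop :=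
  ∃ P : ModuleCat.{u} R, Module.Finite R P ∧ Module.Projective R P ∧
    ∃ (f : M →ₗ[R] P) (g : P →ₗ[R] M), ∀ m : M, g (f m) = a • m

/-- The class `C_I(R)`. -/
def InCI (R : Type u) [CommRing R] (I : Ideal R) (M : ModuleCat.{u} R) : Prop :=
  InC R M ∧ ∀ a ∈ I, InStableAnn R M a

/-- The class `C_{V(I)}(R)`. -/
def InCV (R : Type u) [CommRing R] (I : Ideal R) (M : ModuleCat.{u} R) : Prop :=
  InC R M ∧ ∀ (p : Ideal R) [p.IsPrime], ¬ I ≤ p →
    Module.Free (Localization.AtPrime p) (LocalizedModule p.primeCompl M)

/-- A class `Y` of finitely generated `R`-modules (a full subcategory of `mod R` closed under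
isomorphism) which is stable under finite direct sums (the empty one included), direct summands
and extensions. -/
structure IsExtClosed (R : Type u) [CommRing R] (Y : ModuleCat.{u} R → Prop) : Prop where
  finite : ∀ M, Y M → Module.Finite R M
  iso : ∀ M N : ModuleCat.{u} R, Nonempty (M ≃ₗ[R] N) → Y M → Y N
  zero : ∀ M : ModuleCat.{u} R, Subsingleton M → Y M
  sum : ∀ M N : ModuleCat.{u} R, Y M → Y N → Y (ModuleCat.of R (M × N))
  summand : ∀ M N : ModuleCat.{u} R, Y (ModuleCat.of R (M × N)) → Y M
  extension : ∀ (L M N : ModuleCat.{u} R) (f : L →ₗ[R] M) (g : M →ₗ[R] N),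
    Function.Injective f → Function.Exact f g → Function.Surjective g → Y L → Y N → Y M

/-- `M` belongs to `ext_R X`, the least subcategory of `mod R` which contains `X` and is stable
under finite direct sums, direct summands and extensions. -/
def InExt (R : Type u) [CommRing R] (X : ModuleCat.{u} R → Prop) (M : ModuleCat.{u} R) : Prop :=
  ∀ Y : ModuleCat.{u} R → Prop, IsExtClosed R Y → (∀ N, X N → Y N) → Y M

end Pool.Agent.H.MP_4104ad_al
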