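import Pool.Agent.H.MP_4104ad_al.Defs

set_option autoImplicit false

universe u

open IsLocalRing CategoryTheory Abelian Limits RingTheory.Sequence

namespace Pool.Agent.H.MP_4104ad_al

section
variable (A : Type u) [CommRing A] [IsLocalRing A]

/-- residue field as an object of `ModuleCat` -/
noncomputable abbrev kk : ModuleCat.{u} A := ModuleCat.of A (Shrink.{u} (A ⧸ maximalIdeal A))

/-- vanishing of `Ext^i(k, M)` for `i < n` -/
def Van (M : ModuleCat.{u} A) (n : ℕ) : Prop := ∀ i < n, Subsingleton (Ext (kk A) M i)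

lemma van_of_subsingleton (M : ModuleCat.{u} A) [Subsingleton M] (n : ℕ) : Van A M n := by
  intro i _
  have h : (𝟙 M : M ⟶ M) = 0 := by
    ext x
    exact Subsingleton.elim _ _
  refine ⟨fun a b => ?_⟩
  rw [← Ext.comp_mk₀_id a, ← Ext.comp_mk₀_id b, h, Ext.mk₀_zero, Ext.comp_zero, Ext.comp_zero]

variable {A}

lemma smul_lt [IsNoetherianRing A] (M : ModuleCat.{u} A) [Module.Finite A M] [Nontrivial M] :
    maximalIdeal A • (⊤ : Submodule A M) < ⊤ := by
  rw [lt_top_iff_ne_top]
  intro h
  have h1 : (⊤ : Submodule A M) = ⊥ := by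
    apply Submodule.eq_bot_of_le_smul_of_le_jacobson_bot (maximalIdeal A) ⊤ Module.Finite.fg_top
      (by rw [h])
    exact IsLocalRing.maximalIdeal_le_jacobson ⊥
  exact bot_ne_top h1.symm

/-- the depth is at least `n` iff `Ext^i(k,M) = 0` for `i < n`. -/
lemma le_depth_iff [IsNoetherianRing A] (M : ModuleCat.{u} A) [Module.Finite A M] (n : ℕ) :
    (n : ℕ∞) ≤ depth A M ↔ Van A M n := by
  classical
  rcases subsingleton_or_nontrivial M with hM | hM
  · have h1 : depth A M = ⊤ := by
      unfold depth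
      rw [if_pos hM]
    rw [h1]
    exact ⟨fun _ => van_of_subsingleton A M n, fun _ => le_top⟩
  · have h1 : depth A M = ⨆ (rs : List A) (_ : ∀ r ∈ rs, r ∈ maximalIdeal A)
        (_ : RingTheory.Sequence.IsRegular M rs), (rs.length : ℕ∞) := by
      unfold depth
      rw [if_neg (not_subsingleton M)]
    have hlt := smul_lt M
    constructor
    · intro h
      rcases Nat.eq_zero_or_pos n with h0 | hpos
      · intro i hi
        omega
      · obtain ⟨m, rfl⟩ : ∃ m, n = m + 1 := ⟨n - 1, by omega⟩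
        rw [h1] at h
        have h2 : (m : ℕ∞) < ⨆ (rs : List A) (_ : ∀ r ∈ rs, r ∈ maximalIdeal A)
            (_ : RingTheory.Sequence.IsRegular M rs), (rs.length : ℕ∞) := by
          refine lt_of_lt_of_le ?_ h
          exact_mod_cast Nat.lt_succ_self m
        simp only [lt_iSup_iff] at h2
        obtain ⟨rs, hrs, hreg, hlen⟩ := h2
        have hlen' : m < rs.length := by exact_mod_cast hlen
        have hex : ∃ rs' : List A, rs'.length = rs.length ∧ (∀ r ∈ rs', r ∈ maximalIdeal A) ∧
            RingTheory.Sequence.IsRegular M rs' := ⟨rs, rfl, hrs, hreg⟩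
        have h3 : ∀ i < rs.length, Subsingleton (Ext (kk A) M i) :=
          ((ModuleCat.exists_isRegular_tfae (maximalIdeal A) rs.length M hlt).out 3 1).1 hex
        intro i hi
        exact h3 i (by omega)
    · intro h
      obtain ⟨rs, hlen, hrs, hreg⟩ :=
        ((ModuleCat.exists_isRegular_tfae (maximalIdeal A) n M hlt).out 1 3).1 h
      rw [h1, ← hlen]
      exact le_iSup_of_le rs (le_iSup_of_le hrs (le_iSup_of_le hreg le_rfl))

/-- `depth A ≤ depth M` -/
def Deep (A : Type u) [CommRing A] [IsLocalRing A] (M : Type u) [AddCommGroup M] [Module A M] :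
    Prop := depth A A ≤ depth A M

lemma deep_iff [IsNoetherianRing A] (M : ModuleCat.{u} A) [Module.Finite A M] :
    Deep A M ↔ ∀ n, Van A (ModuleCat.of A A) n → Van A M n := by
  unfold Deep
  constructor
  · intro h n hn
    rw [← le_depth_iff] at hn ⊢
    exact hn.trans h
  · intro h
    rw [ENat.forall_natCast_le_iff_le.symm]
    intro n hn
    have h1 := (le_depth_iff (ModuleCat.of A A) n).1 hn
    exact (le_depth_iff M n).2 (h n h1)

lemma van_retract (M N : ModuleCat.{u} A) (i : M ⟶ N) (r : N ⟶ M) (h : i ≫ r = 𝟙 M) (n : ℕ)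
    (hN : Van A N n) : Van A M n := by
  intro j hj
  have := hN j hj
  refine ⟨fun a b => ?_⟩
  have key : ∀ a : Ext (kk A) M j, (a.comp (Ext.mk₀ i) (add_zero j)).comp (Ext.mk₀ r) (add_zero j)
      = a := by
    intro a
    rw [Ext.comp_assoc_of_third_deg_zero, Ext.mk₀_comp_mk₀, h, Ext.comp_mk₀_id]
  rw [← key a, ← key b]
  congr 1
  exact Subsingleton.elim _ _

lemma van_extension {S : ShortComplex (ModuleCat.{u} A)} (hS : S.ShortExact) (n : ℕ)
    (h1 : Van A S.X₁ n) (h3 : Van A S.X₃ n) : Van A S.X₂ n := by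
  intro j hj
  have i1 := h1 j hj
  have i3 := h3 j hj
  have key : ∀ a : Ext (kk A) S.X₂ j, a = 0 := by
    intro a
    obtain ⟨b, hb⟩ := Ext.covariant_sequence_exact₂ (kk A) hS a (Subsingleton.elim _ _)
    rw [← hb, Subsingleton.elim b 0, Ext.zero_comp]
  exact ⟨fun a b => by rw [key a, key b]⟩

lemma van_kernel {S : ShortComplex (ModuleCat.{u} A)} (hS : S.ShortExact) (n : ℕ)
    (h2 : Van A S.X₂ n) (h3 : Van A S.X₃ n) : Van A S.X₁ n := by
  intro j hj
  have i2 := h2 j hj
  have key : ∀ a : Ext (kk A) S.X₁ j, a = 0 := by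
    intro a
    rcases Nat.eq_zero_or_pos j with h0 | hpos
    · subst h0
      have := hS.mono_f
      apply Ext.postcomp_mk₀_injective_of_mono (kk A) S.f
      exact Subsingleton.elim _ _
    · obtain ⟨m, rfl⟩ : ∃ m, j = m + 1 := ⟨j - 1, by omega⟩
      obtain ⟨b, hb⟩ := Ext.covariant_sequence_exact₁ (kk A) hS a (Subsingleton.elim _ _) rfl
      have i3 := h3 m (by omega)
      rw [← hb, Subsingleton.elim b 0, Ext.zero_comp]
  exact ⟨fun a b => by rw [key a, key b]⟩

end

end Pool.Agent.H.MP_4104ad_al
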