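import Pool.Agent.H.MP_4104ad_al.Local

set_option autoImplicit false

universe u

open IsLocalRing

namespace Pool.Agent.H.MP_4104ad_al

variable {R : Type u} [CommRing R]

/-- localized map -/
noncomputable abbrev lmap (p : Ideal R) [p.IsPrime] {M N : Type u} [AddCommGroup M] [AddCommGroup N]
    [Module R M] [Module R N] (f : M →ₗ[R] N) :
    LocalizedModule p.primeCompl M →ₗ[Localization.AtPrime p] LocalizedModule p.primeCompl N :=
  LocalizedModule.map p.primeCompl f

section
variable (p : Ideal R) [p.IsPrime] {L M N : Type u} [AddCommGroup L] [AddCommGroup M]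
  [AddCommGroup N] [Module R L] [Module R M] [Module R N]

lemma lmap_id : lmap p (LinearMap.id : M →ₗ[R] M) = LinearMap.id := LocalizedModule.map_id _

lemma lmap_comp (f : L →ₗ[R] M) (g : M →ₗ[R] N) : lmap p (g ∘ₗ f) = lmap p g ∘ₗ lmap p f := by
  apply LinearMap.ext
  intro x
  induction x using LocalizedModule.induction_on with
  | h m s => simp [lmap]

lemma lmap_exact (f : L →ₗ[R] M) (g : M →ₗ[R] N) (h : Function.Exact f g) :
    Function.Exact (lmap p f) (lmap p g) := LocalizedModule.map_exact p.primeCompl f g h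

lemma lmap_injective (f : L →ₗ[R] M) (h : Function.Injective f) :
    Function.Injective (lmap p f) := LocalizedModule.map_injective p.primeCompl f h

lemma lmap_surjective (f : L →ₗ[R] M) (h : Function.Surjective f) :
    Function.Surjective (lmap p f) := LocalizedModule.map_surjective p.primeCompl f h

lemma lmap_retract (i : M →ₗ[R] N) (r : N →ₗ[R] M) (h : r ∘ₗ i = LinearMap.id) :
    lmap p r ∘ₗ lmap p i = LinearMap.id := by
  rw [← lmap_comp, h, lmap_id]

end

variable [IsNoetherianRing R] (I : Ideal R)

/-- `M` is in `C_{V(I)}(R)`, unbundled. -/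
def CV (M : Type u) [AddCommGroup M] [Module R M] : Prop := InCV R I (ModuleCat.of R M)

variable {I}
variable {L M N : Type u} [AddCommGroup L] [AddCommGroup M]
  [AddCommGroup N] [Module R L] [Module R M] [Module R N]

omit [IsNoetherianRing R] in
lemma cv_iff : CV I M ↔ Module.Finite R M ∧
    (∀ (p : Ideal R) [p.IsPrime],
      Deep (Localization.AtPrime p) (LocalizedModule p.primeCompl M)) ∧
    ∀ (p : Ideal R) [p.IsPrime], ¬ I ≤ p →
      Module.Free (Localization.AtPrime p) (LocalizedModule p.primeCompl M) := by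
  constructor
  · rintro ⟨⟨h1, h2⟩, h3⟩
    exact ⟨h1, h2, h3⟩
  · rintro ⟨h1, h2, h3⟩
    exact ⟨⟨h1, h2⟩, h3⟩

lemma cv_retract (i : M →ₗ[R] N) (r : N →ₗ[R] M) (h : r ∘ₗ i = LinearMap.id) (hN : CV I N) :
    CV I M := by
  rw [cv_iff] at hN ⊢
  obtain ⟨h1, h2, h3⟩ := hN
  have hr : Function.Surjective r := fun m => ⟨i m, LinearMap.congr_fun h m⟩
  have hM : Module.Finite R M := Module.Finite.of_surjective r hr
  refine ⟨hM, fun p _ => ?_, fun p _ hp => ?_⟩
  · exact deep_retract (lmap p i) (lmap p r) (lmap_retract p i r h) (h2 p)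
  · have := h3 p hp
    exact free_retract (lmap p i) (lmap p r) (lmap_retract p i r h) inferInstance

lemma cv_extension (f : L →ₗ[R] M) (g : M →ₗ[R] N) (hf : Function.Injective f)
    (hfg : Function.Exact f g) (hg : Function.Surjective g) (hL : CV I L) (hN : CV I N) :
    CV I M := by
  rw [cv_iff] at hL hN ⊢
  obtain ⟨l1, l2, l3⟩ := hL
  obtain ⟨n1, n2, n3⟩ := hN
  have hM : Module.Finite R M := Module.Finite.of_exact hfg hg
  refine ⟨hM, fun p _ => ?_, fun p _ hp => ?_⟩
  · exact deep_extension (lmap p f) (lmap p g) (lmap_injective p f hf) (lmap_exact p f g hfg)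
      (lmap_surjective p g hg) (l2 p) (n2 p)
  · exact free_extension (lmap p f) (lmap p g) (lmap_injective p f hf) (lmap_exact p f g hfg)
      (lmap_surjective p g hg) (l3 p hp) (n3 p hp)

lemma cv_kernel (f : L →ₗ[R] M) (g : M →ₗ[R] N) (hf : Function.Injective f)
    (hfg : Function.Exact f g) (hg : Function.Surjective g) (hM : CV I M) (hN : CV I N) :
    CV I L := by
  rw [cv_iff] at hM hN ⊢
  obtain ⟨l1, l2, l3⟩ := hM
  obtain ⟨n1, n2, n3⟩ := hN
  have : IsNoetherian R M := isNoetherian_of_isNoetherianRing_of_finite R M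
  have hL : Module.Finite R L := Module.Finite.of_injective f hf
  refine ⟨hL, fun p _ => ?_, fun p _ hp => ?_⟩
  · exact deep_kernel (lmap p f) (lmap p g) (lmap_injective p f hf) (lmap_exact p f g hfg)
      (lmap_surjective p g hg) (l2 p) (n2 p)
  · exact free_kernel (lmap p f) (lmap p g) (lmap_injective p f hf) (lmap_exact p f g hfg)
      (lmap_surjective p g hg) (l3 p hp) (n3 p hp)

lemma cv_zero [Subsingleton M] : CV I M := by
  rw [cv_iff]
  have h0 : ∀ (p : Ideal R) [p.IsPrime], Subsingleton (LocalizedModule p.primeCompl M) := by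
    intro p _
    refine ⟨fun a b => ?_⟩
    induction a using LocalizedModule.induction_on with
    | h m s =>
      induction b using LocalizedModule.induction_on with
      | h m' s' =>
        rw [Subsingleton.elim m 0, Subsingleton.elim m' 0, LocalizedModule.zero_mk,
          LocalizedModule.zero_mk]
  refine ⟨inferInstance, fun p _ => ?_, fun p _ hp => ?_⟩
  · have := h0 p
    exact deep_of_subsingleton
  · have := h0 p
    infer_instance

lemma cv_self : CV I R := by
  rw [cv_iff]
  refine ⟨inferInstance, fun p _ => ?_, fun p _ hp => ?_⟩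
  · let e : Localization.AtPrime p ≃ₗ[Localization.AtPrime p] LocalizedModule p.primeCompl R :=
      (IsLocalizedModule.linearEquiv p.primeCompl (Algebra.linearMap R (Localization.AtPrime p))
        (LocalizedModule.mkLinearMap p.primeCompl R)).extendScalarsOfIsLocalization p.primeCompl
        (Localization.AtPrime p)
    exact deep_retract e.symm.toLinearMap e.toLinearMap (by ext; simp) deep_self
  · infer_instance

lemma cv_prod (hM : CV I M) (hN : CV I N) : CV I (M × N) :=
  cv_extension (LinearMap.inl R M N) (LinearMap.snd R M N) LinearMap.inl_injective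
    (by intro x; simp [Prod.ext_iff, eq_comm]) LinearMap.snd_surjective hM hN

lemma cv_fin (n : ℕ) : CV I (Fin n → R) := by
  induction n with
  | zero => exact cv_zero
  | succ n ih =>
    let e : (Fin (n+1) → R) ≃ₗ[R] R × (Fin n → R) := (Fin.consLinearEquiv R (fun _ => R)).symm
    exact cv_retract e.toLinearMap e.symm.toLinearMap (by ext; simp) (cv_prod cv_self ih)

end Pool.Agent.H.MP_4104ad_al
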