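import Pool.Agent.H.MP_4104ad_al.Depth

set_option autoImplicit false

universe u

open IsLocalRing CategoryTheory Abelian Limits RingTheory.Sequence

namespace Pool.Agent.H.MP_4104ad_al

section
variable {A : Type u} [CommRing A] [IsLocalRing A] [IsNoetherianRing A]
variable {L M N : Type u} [AddCommGroup L] [AddCommGroup M] [AddCommGroup N]
  [Module A L] [Module A M] [Module A N]
  [Module.Finite A L] [Module.Finite A M] [Module.Finite A N]

lemma deep_iff' : Deep A M ↔ ∀ n, Van A (ModuleCat.of A A) n → Van A (ModuleCat.of A M) n :=
  deep_iff (ModuleCat.of A M)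

omit [IsNoetherianRing A] in
lemma deep_self : Deep A A := le_refl _

lemma deep_of_subsingleton [Subsingleton M] : Deep A M := by
  rw [deep_iff']
  intro n _
  have : Subsingleton (ModuleCat.of A M) := ‹Subsingleton M›
  exact van_of_subsingleton A _ n

lemma deep_retract (i : M →ₗ[A] N) (r : N →ₗ[A] M) (h : r ∘ₗ i = LinearMap.id)
    (hN : Deep A N) : Deep A M := by
  rw [deep_iff'] at hN ⊢
  intro n hn
  refine van_retract (ModuleCat.of A M) (ModuleCat.of A N) (ModuleCat.ofHom i)
    (ModuleCat.ofHom r) ?_ n (hN n hn)
  rw [← ModuleCat.ofHom_comp, h]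
  rfl

lemma shortExact_mk (f : L →ₗ[A] M) (g : M →ₗ[A] N) (hf : Function.Injective f)
    (hfg : Function.Exact f g) (hg : Function.Surjective g) :
    (ShortComplex.mk (ModuleCat.ofHom f) (ModuleCat.ofHom g) (by
      rw [← ModuleCat.ofHom_comp, hfg.linearMap_comp_eq_zero]; rfl)).ShortExact where
  exact := (ShortComplex.ShortExact.moduleCat_exact_iff_function_exact _).2 hfg
  mono_f := (ModuleCat.mono_iff_injective _).2 hf
  epi_g := (ModuleCat.epi_iff_surjective _).2 hg

lemma deep_extension (f : L →ₗ[A] M) (g : M →ₗ[A] N) (hf : Function.Injective f)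
    (hfg : Function.Exact f g) (hg : Function.Surjective g) (hL : Deep A L) (hN : Deep A N) :
    Deep A M := by
  rw [deep_iff'] at hL hN ⊢
  intro n hn
  exact van_extension (shortExact_mk f g hf hfg hg) n (hL n hn) (hN n hn)

lemma deep_kernel (f : L →ₗ[A] M) (g : M →ₗ[A] N) (hf : Function.Injective f)
    (hfg : Function.Exact f g) (hg : Function.Surjective g) (hM : Deep A M) (hN : Deep A N) :
    Deep A L := by
  rw [deep_iff'] at hM hN ⊢
  intro n hn
  exact van_kernel (shortExact_mk f g hf hfg hg) n (hM n hn) (hN n hn)

end

section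
variable {A : Type u} [CommRing A] [IsLocalRing A]
variable {L M N : Type u} [AddCommGroup L] [AddCommGroup M] [AddCommGroup N]
  [Module A L] [Module A M] [Module A N]
  [Module.Finite A L] [Module.Finite A M] [Module.Finite A N]

lemma free_of_projective [Module.Projective A M] : Module.Free A M :=
  Module.free_of_flat_of_isLocalRing

lemma free_retract (i : M →ₗ[A] N) (r : N →ₗ[A] M) (h : r ∘ₗ i = LinearMap.id)
    (hN : Module.Projective A N) : Module.Free A M := by
  have : Module.Projective A M := Module.Projective.of_split i r h
  exact free_of_projective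

lemma free_extension (f : L →ₗ[A] M) (g : M →ₗ[A] N) (hf : Function.Injective f)
    (hfg : Function.Exact f g) (hg : Function.Surjective g) (hL : Module.Free A L)
    (hN : Module.Free A N) : Module.Free A M := by
  obtain ⟨s, hs⟩ := Module.projective_lifting_property g LinearMap.id hg
  have hs' : ∀ n, g (s n) = n := fun n => LinearMap.congr_fun hs n
  -- M is a retract (indeed the image) of L × N
  have hbij : Function.Bijective (f.coprod s) := by
    constructor
    · rw [← LinearMap.ker_eq_bot, LinearMap.ker_eq_bot']
      rintro ⟨l, n⟩ h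
      simp only [LinearMap.coprod_apply] at h
      have h1 : g (f l + s n) = n := by
        rw [map_add, hs', hfg.apply_apply_eq_zero, zero_add]
      rw [h, map_zero] at h1
      subst h1
      rw [map_zero, add_zero] at h
      have := hf (h.trans (map_zero f).symm)
      rw [this]; rfl
    · intro m
      have h1 : g (m - s (g m)) = 0 := by rw [map_sub, hs', sub_self]
      obtain ⟨l, hl⟩ := (hfg _).1 h1
      exact ⟨(l, g m), by simp [LinearMap.coprod_apply, hl]⟩
  exact Module.Free.of_equiv (LinearEquiv.ofBijective _ hbij)

lemma free_kernel (f : L →ₗ[A] M) (g : M →ₗ[A] N) (hf : Function.Injective f)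
    (hfg : Function.Exact f g) (hg : Function.Surjective g) (hM : Module.Free A M)
    (hN : Module.Free A N) : Module.Free A L := by
  obtain ⟨s, hs⟩ := Module.projective_lifting_property g LinearMap.id hg
  have hs' : ∀ n, g (s n) = n := fun n => LinearMap.congr_fun hs n
  -- retraction M → L
  have hex : ∀ m, ∃ l, f l = m - s (g m) := fun m => by
    have h1 : g (m - s (g m)) = 0 := by rw [map_sub, hs', sub_self]
    exact (hfg _).1 h1
  choose r hr using hex
  let r' : M →ₗ[A] L :=
    { toFun := r
      map_add' := fun x y => hf (by simp only [hr, map_add]; abel)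
      map_smul' := fun c x => hf (by simp only [hr, map_smul, RingHom.id_apply, smul_sub]) }
  refine free_retract f r' ?_ inferInstance
  ext l
  apply hf
  change f (r (f l)) = f l
  rw [hr, hfg.apply_apply_eq_zero, map_zero, sub_zero]

end

end Pool.Agent.H.MP_4104ad_al
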