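import Pool.Agent.H.MP_4104ad_al.Stable

set_option autoImplicit false

universe u

open IsLocalRing

namespace Pool.Agent.H.MP_4104ad_al

variable {R : Type u} [CommRing R] {I : Ideal R}

/-- closed classes are closed under retracts -/
lemma IsExtClosed.retract {Y : ModuleCat.{u} R → Prop} (hY : IsExtClosed R Y)
    {M N : Type u} [AddCommGroup M] [AddCommGroup N] [Module R M] [Module R N]
    (i : M →ₗ[R] N) (r : N →ₗ[R] M) (h : r ∘ₗ i = LinearMap.id)
    (hN : Y (ModuleCat.of R N)) : Y (ModuleCat.of R M) := by
  have h' : ∀ m, r (i m) = m := fun m => LinearMap.congr_fun h m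
  have hbij : Function.Bijective (i.coprod (LinearMap.ker r).subtype) := by
    constructor
    · rw [← LinearMap.ker_eq_bot, LinearMap.ker_eq_bot']
      rintro ⟨m, n⟩ hmn
      simp only [LinearMap.coprod_apply, Submodule.subtype_apply] at hmn
      have h1 : r (i m + n) = m := by
        rw [map_add, h', LinearMap.mem_ker.1 n.2, add_zero]
      rw [hmn, map_zero] at h1
      subst h1
      rw [map_zero, zero_add] at hmn
      exact Prod.ext rfl (Subtype.ext hmn)
    · intro n
      refine ⟨(r n, ⟨n - i (r n), ?_⟩), ?_⟩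
      · rw [LinearMap.mem_ker, map_sub, h', sub_self]
      · simp
  refine hY.summand (ModuleCat.of R M) (ModuleCat.of R (LinearMap.ker r)) ?_
  exact hY.iso (ModuleCat.of R N) _ ⟨(LinearEquiv.ofBijective _ hbij).symm⟩ hN

section
variable [IsNoetherianRing R]

/-- `C_I(R) ⊆ C_{V(I)}(R)` -/
lemma inCV_of_inCI (M : ModuleCat.{u} R) (h : InCI R I M) : InCV R I M := by
  refine ⟨h.1, fun p _ hp => ?_⟩
  obtain ⟨x, hxI, hxp⟩ : ∃ x, x ∈ I ∧ x ∉ p := by
    by_contra hcon
    push Not at hcon
    exact hp hcon
  obtain ⟨P, hP1, hP2, f, g, hfg⟩ := h.2 x hxI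
  have hM : Module.Finite R M := h.1.1
  have hu : IsUnit (algebraMap R (Localization.AtPrime p) x) :=
    IsLocalization.map_units (Localization.AtPrime p) (⟨x, hxp⟩ : p.primeCompl)
  obtain ⟨u, hu⟩ := hu
  refine free_retract (lmap p f) ((u⁻¹ : (Localization.AtPrime p)ˣ).1 • lmap p g) ?_ inferInstance
  apply LinearMap.ext
  intro y
  induction y using LocalizedModule.induction_on with
  | h m s =>
    simp only [lmap, LinearMap.comp_apply, LocalizedModule.map_mk, LinearMap.smul_apply, hfg,
      LinearMap.id_apply]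
    have h1 : LocalizedModule.mk (x • m) s = u.1 • LocalizedModule.mk m s := by
      rw [hu, algebraMap_smul]
      exact (LocalizedModule.smul'_mk x m s).symm
    rw [h1, smul_smul, Units.inv_mul, one_smul]

/-- some power of each element of `I` is in the stable annihilator -/
lemma exists_pow_sa (M : Type u) [AddCommGroup M] [Module R M] (hM : CV I M) (x : R) (hx : x ∈ I) :
    ∃ n : ℕ, SA M (x ^ n) := by
  rw [cv_iff] at hM
  obtain ⟨h1, -, h3⟩ := hM
  obtain ⟨n, π, hπ⟩ := Module.Finite.exists_fin' R M
  have hfp : Module.FinitePresentation R M := Module.finitePresentation_of_finite R M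
  have key0 : ∀ p : Ideal R, p.IsPrime → liftIdeal π ≤ p → x ∈ p := by
    intro p hp hle
    by_contra hxp
    have hfree := h3 p (fun hI => hxp (hI hx))
    obtain ⟨σ, hσ⟩ := Module.projective_lifting_property (lmap p π) LinearMap.id
      (lmap_surjective p π hπ)
    obtain ⟨h, s, hs⟩ := Module.FinitePresentation.exists_lift_of_isLocalizedModule p.primeCompl
      (LocalizedModule.mkLinearMap p.primeCompl (Fin n → R))
      ((σ.restrictScalars R) ∘ₗ LocalizedModule.mkLinearMap p.primeCompl M)
    have h4 : (LocalizedModule.mkLinearMap p.primeCompl M) ∘ₗ (π ∘ₗ h) =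
        (LocalizedModule.mkLinearMap p.primeCompl M) ∘ₗ ((s : R) • LinearMap.id) := by
      ext m
      have h5 : LocalizedModule.mkLinearMap p.primeCompl (Fin n → R) (h m) =
          s • σ (LocalizedModule.mkLinearMap p.primeCompl M m) := LinearMap.congr_fun hs m
      have h6 : (LocalizedModule.mkLinearMap p.primeCompl M) (π (h m)) =
          lmap p π (LocalizedModule.mkLinearMap p.primeCompl (Fin n → R) (h m)) := by
        simp [lmap]
      have h7 : lmap p π (σ (LocalizedModule.mkLinearMap p.primeCompl M m)) =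
          LocalizedModule.mkLinearMap p.primeCompl M m := LinearMap.congr_fun hσ _
      simp only [LinearMap.comp_apply, LinearMap.smul_apply, LinearMap.id_apply]
      have h8 : lmap p π (s • σ (LocalizedModule.mkLinearMap p.primeCompl M m)) =
          s • lmap p π (σ (LocalizedModule.mkLinearMap p.primeCompl M m)) :=
        ((lmap p π).restrictScalars R).map_smul (s : R) _
      rw [h6, h5, h8, h7, map_smul]
      rfl
    obtain ⟨t, ht⟩ := Module.Finite.exists_smul_of_comp_eq_of_isLocalizedModule p.primeCompl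
      (LocalizedModule.mkLinearMap p.primeCompl M) _ _ h4
    have h9 : ((t : R) * (s : R)) ∈ liftIdeal π := by
      refine ⟨(t : R) • h, ?_⟩
      rw [LinearMap.comp_smul]
      have : (t : R) • (π ∘ₗ h) = (t : R) • ((s : R) • LinearMap.id) := ht
      rw [this, smul_smul]
    rcases (Ideal.IsPrime.mem_or_mem hp (hle h9)) with h10 | h10
    · exact t.2 h10
    · exact s.2 h10
  have key : x ∈ (liftIdeal π).radical := by
    rw [Ideal.radical_eq_sInf, Submodule.mem_sInf]
    rintro p ⟨hle, hp⟩
    exact key0 p hp hle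
  obtain ⟨k, hk⟩ := key
  exact ⟨k, sa_of_lifts π hk⟩

/-- one step: adding `x` to the list of elements in the stable annihilator -/
lemma main_step {Y : ModuleCat.{u} R → Prop} (hY : IsExtClosed R Y) (x : R) (hx : x ∈ I)
    (T : Set R)
    (hT : ∀ (N : Type u) [AddCommGroup N] [Module R N], CV I N → (∀ a ∈ insert x T, SA N a) →
      Y (ModuleCat.of R N))
    (N : Type u) [AddCommGroup N] [Module R N] (hN : CV I N) (hNT : ∀ a ∈ T, SA N a) :
    Y (ModuleCat.of R N) := by
  have hfin : Module.Finite R N := (cv_iff.1 hN).1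
  obtain ⟨n, π, hπ⟩ := Module.Finite.exists_fin' R N
  have hF : CV I (Fin n → R) := cv_fin n
  have hΩ : CV I (LinearMap.ker π) :=
    cv_kernel (LinearMap.ker π).subtype π (Submodule.subtype_injective _)
      (LinearMap.exact_subtype_ker_map π) hπ hF hN
  have hC : CV I (CC π x) :=
    cv_extension (ccI π x) (ccP π x) (ccI_injective π x) (cc_exact π x) (ccP_surjective π hπ x)
      hΩ hN
  have hYC : Y (ModuleCat.of R (CC π x)) := by
    apply hT _ hC
    intro a ha
    rcases ha with rfl | ha
    · exact sa_cc_self π a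
    · exact sa_cc π hπ x a (hNT a ha)
  have hYF : Y (ModuleCat.of R (Fin n → R)) := by
    apply hT _ hF
    intro a _
    exact sa_of_lifts (LinearMap.id : (Fin n → R) →ₗ[R] (Fin n → R)) ⟨a • LinearMap.id, rfl⟩
  have hpow : ∀ k : ℕ, Y (ModuleCat.of R (CC π (x ^ (k + 1)))) := by
    intro k
    induction k with
    | zero =>
      have : x ^ (0 + 1) = x := by simp
      rw [this]
      exact hYC
    | succ k ih =>
      have h1 : Y (ModuleCat.of R ((CC π (x ^ (k + 1 + 1))) × (Fin n → R))) :=
        hY.extension (ModuleCat.of R (CC π (x ^ (k + 1)))) (ModuleCat.of R _)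
          (ModuleCat.of R (CC π x)) (ccJ π x (k + 1)) (ccTheta π x (k + 1))
          (ccJ_injective π x (k + 1)) (cc_exact' π x (k + 1)) (ccTheta_surjective π hπ x (k + 1))
          ih hYC
      exact hY.summand (ModuleCat.of R (CC π (x ^ (k + 1 + 1)))) (ModuleCat.of R (Fin n → R)) h1
  obtain ⟨k, hk⟩ := exists_pow_sa N hN x hx
  have hk' : SA N (x ^ (k + 1)) := by
    apply sa_of_lifts π
    rw [← mem_liftIdeal, pow_succ']
    exact (liftIdeal π).mul_mem_left x ((mem_liftIdeal π _).2 (lifts_of_sa π hπ hk))
  obtain ⟨i, hi⟩ := cc_retract π hπ (x ^ (k + 1)) hk'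
  exact hY.retract i (ccP π (x ^ (k + 1))) hi (hpow k)

lemma main_induct (T : Finset R) (hTI : ∀ x ∈ T, x ∈ I) :
    ∀ {Y : ModuleCat.{u} R → Prop} (_ : IsExtClosed R Y)
      (_ : ∀ (N : Type u) [AddCommGroup N] [Module R N], CV I N → (∀ a ∈ (T : Set R), SA N a) →
        Y (ModuleCat.of R N))
      (N : Type u) [AddCommGroup N] [Module R N], CV I N → Y (ModuleCat.of R N) := by
  classical
  induction T using Finset.induction_on with
  | empty =>
    intro Y hY hT N _ _ hN
    exact hT N hN (by simp)
  | insert x T hxT ih =>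
    intro Y hY hT N _ _ hN
    refine ih (fun y hy => hTI y (Finset.mem_insert_of_mem hy)) hY ?_ N hN
    intro N' _ _ hN' hN'T
    refine main_step hY x (hTI x (Finset.mem_insert_self x T)) (T : Set R) ?_ N' hN' hN'T
    intro N'' _ _ h1 h2
    exact hT N'' h1 (by rwa [Finset.coe_insert])

lemma isExtClosed_inCV : IsExtClosed R (InCV R I) where
  finite := fun M h => h.1.1
  iso := by
    rintro M N ⟨e⟩ h
    exact cv_retract (M := N) (N := M) e.symm.toLinearMap e.toLinearMap (by ext; simp) h
  zero := fun M h => cv_zero (M := M)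
  sum := fun M N hM hN => cv_prod (M := M) (N := N) hM hN
  summand := fun M N h => cv_retract (M := M) (N := M × N) (LinearMap.inl R M N)
    (LinearMap.fst R M N) (by ext; simp) h
  extension := fun L M N f g hf hfg hg hL hN =>
    cv_extension (L := L) (M := M) (N := N) f g hf hfg hg hL hN

/-- `ext_R (C_I(R)) = C_{V(I)}(R)` -/
theorem main (M : ModuleCat.{u} R) : InExt R (InCI R I) M ↔ InCV R I M := by
  constructor
  · intro h
    exact h (InCV R I) isExtClosed_inCV (fun N hN => inCV_of_inCI N hN)
  · intro h Y hY hX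
    obtain ⟨T, hT⟩ := (isNoetherianRing_iff_ideal_fg R).1 inferInstance I
    refine main_induct (I := I) T (fun x hx => ?_) hY ?_ M h
    · rw [← hT]; exact Submodule.subset_span hx
    · intro N _ _ hN hNT
      apply hX
      refine ⟨hN.1, fun a ha => ?_⟩
      have hfin : Module.Finite R N := hN.1.1
      obtain ⟨n, π, hπ⟩ := Module.Finite.exists_fin' R N
      have hle : I ≤ liftIdeal π := by
        rw [← hT, Submodule.span_le]
        intro b hb
        exact lifts_of_sa π hπ (hNT b hb)
      exact sa_of_lifts π (hle ha)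

end

end Pool.Agent.H.MP_4104ad_al
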