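import Pool.Agent.H.MP_4104ad_al.Main

set_option autoImplicit false

universe u

namespace Pool.Agent.H.MP_4104ad_al

variable {R : Type u} [CommRing R]

/-- In the definition of the stable annihilator of a finitely generated module it makes no
difference whether the projective module is asked to be finitely generated. -/
lemma inStableAnn_iff (M : ModuleCat.{u} R) [Module.Finite R M] (a : R) :
    InStableAnn R M a ↔ ∃ P : ModuleCat.{u} R, Module.Projective R P ∧
      ∃ (f : M →ₗ[R] P) (g : P →ₗ[R] M), ∀ m : M, g (f m) = a • m := by
  constructor
  · rintro ⟨P, _, h2, h3⟩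
    exact ⟨P, h2, h3⟩
  · rintro ⟨P, h2, f, g, h⟩
    obtain ⟨n, π, hπ⟩ := Module.Finite.exists_fin' R M
    obtain ⟨t, ht⟩ := Module.projective_lifting_property π g hπ
    refine ⟨ModuleCat.of R (Fin n → R), inferInstance, inferInstance, t ∘ₗ f, π, fun m => ?_⟩
    rw [← h m, ← ht]
    rfl

/-- `InExt R X` is the least class containing `X` which is closed under finite direct sums,
direct summands and extensions, for every class `X` of finitely generated modules. -/
lemma isExtClosed_inExt [IsNoetherianRing R] (X : ModuleCat.{u} R → Prop)
    (hX : ∀ M, X M → Module.Finite R M) :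
    IsExtClosed R (InExt R X) ∧ (∀ M, X M → InExt R X M) ∧
      ∀ Y, IsExtClosed R Y → (∀ M, X M → Y M) → ∀ M, InExt R X M → Y M := by
  have hfin : IsExtClosed R (fun M => Module.Finite R M) :=
    { finite := fun M h => h
      iso := fun M N ⟨e⟩ h => Module.Finite.equiv e
      zero := fun M h => inferInstance
      sum := fun M N h1 h2 => by
        have : Module.Finite R (M × N) := inferInstance
        exact this
      summand := fun M N h => by
        have : Module.Finite R (M × N) := h
        exact Module.Finite.of_surjective (LinearMap.fst R M N) LinearMap.fst_surjective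
      extension := fun L M N f g _ hfg hg hL hN => Module.Finite.of_exact hfg hg }
  refine ⟨?_, fun M hM Y _ hXY => hXY M hM, fun Y hY hXY M hM => hM Y hY hXY⟩
  exact
    { finite := fun M h => h _ hfin hX
      iso := fun M N e h Y hY hXY => hY.iso M N e (h Y hY hXY)
      zero := fun M h Y hY _ => hY.zero M h
      sum := fun M N h1 h2 Y hY hXY => hY.sum M N (h1 Y hY hXY) (h2 Y hY hXY)
      summand := fun M N h Y hY hXY => hY.summand M N (h Y hY hXY)
      extension := fun L M N f g h1 h2 h3 hL hN Y hY hXY =>
        hY.extension L M N f g h1 h2 h3 (hL Y hY hXY) (hN Y hY hXY) }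

end Pool.Agent.H.MP_4104ad_al
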