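import Pool.Agent.H.MP_4104ad_al.Global

set_option autoImplicit false

universe u

namespace Pool.Agent.H.MP_4104ad_al

variable {R : Type u} [CommRing R]

section
variable {M : Type u} [AddCommGroup M] [Module R M] {F : Type u} [AddCommGroup F] [Module R F]

/-- `a` is in the stable annihilator, read off from a surjection `π : F → M`. -/
def Lifts (π : F →ₗ[R] M) (a : R) : Prop := ∃ s : M →ₗ[R] F, π ∘ₗ s = a • LinearMap.id

/-- the ideal of all `a` with `Lifts π a` -/
def liftIdeal (π : F →ₗ[R] M) : Ideal R where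
  carrier := {a | Lifts π a}
  add_mem' := by
    rintro a b ⟨s, hs⟩ ⟨t, ht⟩
    exact ⟨s + t, by rw [LinearMap.comp_add, hs, ht, add_smul]⟩
  zero_mem' := ⟨0, by simp⟩
  smul_mem' := by
    rintro c a ⟨s, hs⟩
    exact ⟨c • s, by rw [LinearMap.comp_smul, hs, smul_smul, smul_eq_mul]⟩

lemma mem_liftIdeal (π : F →ₗ[R] M) (a : R) : a ∈ liftIdeal π ↔ Lifts π a := Iff.rfl

/-- unbundled stable annihilator -/
def SA (M : Type u) [AddCommGroup M] [Module R M] (a : R) : Prop :=
  InStableAnn R (ModuleCat.of R M) a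

lemma sa_iff (M : Type u) [AddCommGroup M] [Module R M] (a : R) :
    SA M a ↔ ∃ (P : Type u) (_ : AddCommGroup P) (_ : Module R P), Module.Finite R P ∧
      Module.Projective R P ∧ ∃ (f : M →ₗ[R] P) (g : P →ₗ[R] M), ∀ m : M, g (f m) = a • m := by
  constructor
  · rintro ⟨P, h1, h2, f, g, h⟩
    exact ⟨P, inferInstance, inferInstance, h1, h2, f, g, h⟩
  · rintro ⟨P, _, _, h1, h2, f, g, h⟩
    exact ⟨ModuleCat.of R P, h1, h2, f, g, h⟩

lemma sa_of_lifts [Module.Finite R F] [Module.Projective R F] (π : F →ₗ[R] M) {a : R}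
    (h : Lifts π a) : SA M a := by
  obtain ⟨s, hs⟩ := h
  rw [sa_iff]
  exact ⟨F, inferInstance, inferInstance, inferInstance, inferInstance, s, π,
    fun m => LinearMap.congr_fun hs m⟩

lemma lifts_of_sa (π : F →ₗ[R] M) (hπ : Function.Surjective π) {a : R} (h : SA M a) :
    Lifts π a := by
  rw [sa_iff] at h
  obtain ⟨P, _, _, _, _, f, g, h⟩ := h
  obtain ⟨t, ht⟩ := Module.projective_lifting_property π g hπ
  refine ⟨t ∘ₗ f, ?_⟩
  rw [← LinearMap.comp_assoc, ht]
  ext m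
  exact h m

end

section
variable {M : Type u} [AddCommGroup M] [Module R M] {F : Type u} [AddCommGroup F] [Module R F]

/-- `C(x) = {(m, φ) : x m + π φ = 0}` -/
def CC (π : F →ₗ[R] M) (x : R) : Submodule R (M × F) :=
  LinearMap.ker (x • LinearMap.fst R M F + π ∘ₗ LinearMap.snd R M F)

lemma mem_CC (π : F →ₗ[R] M) (x : R) (y : M × F) : y ∈ CC π x ↔ x • y.1 + π y.2 = 0 := by
  simp [CC, LinearMap.mem_ker]

/-- the inclusion of `ker π` in `C(x)` -/
def ccI (π : F →ₗ[R] M) (x : R) : LinearMap.ker π →ₗ[R] CC π x :=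
  LinearMap.codRestrict (CC π x) (LinearMap.inr R M F ∘ₗ (LinearMap.ker π).subtype)
    (fun y => by
      rw [mem_CC]
      have : π y = 0 := y.2
      simp [this])

/-- the projection of `C(x)` to `M` -/
def ccP (π : F →ₗ[R] M) (x : R) : CC π x →ₗ[R] M := LinearMap.fst R M F ∘ₗ (CC π x).subtype

lemma ccI_injective (π : F →ₗ[R] M) (x : R) : Function.Injective (ccI π x) := by
  intro a b h
  have h1 := congrArg (fun y : CC π x => y.1.2) h
  exact Subtype.ext h1

lemma cc_exact (π : F →ₗ[R] M) (x : R) : Function.Exact (ccI π x) (ccP π x) := by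
  intro y
  constructor
  · intro h
    have h1 : y.1.1 = 0 := h
    have h2 := (mem_CC π x y.1).1 y.2
    rw [h1, smul_zero, zero_add] at h2
    exact ⟨⟨y.1.2, h2⟩, Subtype.ext (Prod.ext h1.symm rfl)⟩
  · rintro ⟨z, rfl⟩
    rfl

lemma ccP_surjective (π : F →ₗ[R] M) (hπ : Function.Surjective π) (x : R) :
    Function.Surjective (ccP π x) := by
  intro m
  obtain ⟨φ, hφ⟩ := hπ (-(x • m))
  exact ⟨⟨(m, φ), (mem_CC π x _).2 (by simp [hφ])⟩, rfl⟩

/-- the map `F → C(x)`, `ψ ↦ (π ψ, - x ψ)` -/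
def ccT (π : F →ₗ[R] M) (x : R) : F →ₗ[R] CC π x :=
  LinearMap.codRestrict (CC π x) (LinearMap.prod π (-(x • LinearMap.id)))
    (fun y => by rw [mem_CC]; simp)

lemma ccT_fst (π : F →ₗ[R] M) (x : R) (ψ : F) : (ccT π x ψ).1.1 = π ψ := rfl
lemma ccT_snd (π : F →ₗ[R] M) (x : R) (ψ : F) : (ccT π x ψ).1.2 = -(x • ψ) := rfl

/-- `x` is in the stable annihilator of `C(x)` -/
lemma sa_cc_self [Module.Finite R F] [Module.Projective R F] (π : F →ₗ[R] M) (x : R) :
    SA (CC π x) x := by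
  rw [sa_iff]
  refine ⟨F, inferInstance, inferInstance, inferInstance, inferInstance,
    -(LinearMap.snd R M F ∘ₗ (CC π x).subtype), ccT π x, ?_⟩
  intro y
  have h := (mem_CC π x y.1).1 y.2
  apply Subtype.ext
  apply Prod.ext
  · change π (-(y.1.2)) = x • y.1.1
    rw [map_neg]
    exact (eq_neg_of_add_eq_zero_left h).symm
  · change -(x • (-(y.1.2))) = x • y.1.2
    simp

/-- the stable annihilator of `M` is contained in that of `C(x)` -/
lemma sa_cc [Module.Finite R F] [Module.Projective R F] (π : F →ₗ[R] M)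
    (hπ : Function.Surjective π) (x a : R) (h : SA M a) : SA (CC π x) a := by
  obtain ⟨σ, hσ⟩ := lifts_of_sa π hπ h
  have hσ' : ∀ m, π (σ m) = a • m := fun m => LinearMap.congr_fun hσ m
  rw [sa_iff]
  -- the second component map `φ ↦ (0, a φ - σ π φ)`
  let δ : F →ₗ[R] CC π x :=
    LinearMap.codRestrict (CC π x) (LinearMap.inr R M F ∘ₗ (a • LinearMap.id - σ ∘ₗ π))
      (fun y => by rw [mem_CC]; simp [hσ'])
  refine ⟨F × F, inferInstance, inferInstance, inferInstance, inferInstance,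
    (LinearMap.prod (σ ∘ₗ ccP π x) (LinearMap.snd R M F ∘ₗ (CC π x).subtype)),
    (ccT π x).coprod δ, ?_⟩
  intro y
  have h := (mem_CC π x y.1).1 y.2
  have h' : σ (π y.1.2) = -(x • σ y.1.1) := by
    rw [← map_smul, ← map_neg, eq_neg_of_add_eq_zero_right h]
  apply Subtype.ext
  apply Prod.ext
  · change π (σ y.1.1) + 0 = a • y.1.1
    rw [hσ', add_zero]
  · change -(x • σ y.1.1) + (a • y.1.2 - σ (π y.1.2)) = a • y.1.2
    rw [h']
    abel

/-- the surjection `C(x^(n+1)) × F → C(x)` -/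
def ccTheta (π : F →ₗ[R] M) (x : R) (n : ℕ) : (CC π (x ^ (n + 1))) × F →ₗ[R] CC π x :=
  LinearMap.codRestrict (CC π x)
    (LinearMap.prod
      (x ^ n • (LinearMap.fst R M F ∘ₗ (CC π (x ^ (n + 1))).subtype ∘ₗ LinearMap.fst R _ F)
        + π ∘ₗ LinearMap.snd R _ F)
      ((LinearMap.snd R M F ∘ₗ (CC π (x ^ (n + 1))).subtype ∘ₗ LinearMap.fst R _ F)
        - x • LinearMap.snd R _ F))
    (fun y => by
      rw [mem_CC]
      have h := (mem_CC π (x ^ (n + 1)) y.1.1).1 y.1.2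
      change x • (x ^ n • y.1.1.1 + π y.2) + π (y.1.1.2 - x • y.2) = 0
      rw [smul_add, smul_smul, ← pow_succ', map_sub, map_smul]
      calc x ^ (n + 1) • (y.1.1.1) + x • π y.2 + (π y.1.1.2 - x • π y.2)
          = x ^ (n + 1) • (y.1.1.1) + π y.1.1.2 := by abel
        _ = 0 := h)

/-- the injection `C(x^n) → C(x^(n+1)) × F` -/
def ccJ (π : F →ₗ[R] M) (x : R) (n : ℕ) : CC π (x ^ n) →ₗ[R] (CC π (x ^ (n + 1))) × F :=
  LinearMap.prod
    (LinearMap.codRestrict (CC π (x ^ (n + 1)))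
      (LinearMap.prod (LinearMap.fst R M F ∘ₗ (CC π (x ^ n)).subtype)
        (x • (LinearMap.snd R M F ∘ₗ (CC π (x ^ n)).subtype)))
      (fun y => by
        rw [mem_CC]
        have h := (mem_CC π (x ^ n) y.1).1 y.2
        change x ^ (n + 1) • y.1.1 + π (x • y.1.2) = 0
        rw [map_smul, pow_succ', mul_smul, ← smul_add, h, smul_zero]))
    (LinearMap.snd R M F ∘ₗ (CC π (x ^ n)).subtype)

lemma ccJ_injective (π : F →ₗ[R] M) (x : R) (n : ℕ) : Function.Injective (ccJ π x n) := by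
  intro a b h
  have h1 : a.1.1 = b.1.1 := congrArg (fun y => y.1.1.1) h
  have h2 : a.1.2 = b.1.2 := congrArg (fun y => y.2) h
  exact Subtype.ext (Prod.ext h1 h2)

lemma cc_exact' (π : F →ₗ[R] M) (x : R) (n : ℕ) :
    Function.Exact (ccJ π x n) (ccTheta π x n) := by
  intro y
  constructor
  · intro h
    have h1 : x ^ n • y.1.1.1 + π y.2 = 0 := congrArg (fun z : CC π x => z.1.1) h
    have h2 : y.1.1.2 - x • y.2 = 0 := congrArg (fun z : CC π x => z.1.2) h
    refine ⟨⟨(y.1.1.1, y.2), (mem_CC π (x ^ n) _).2 h1⟩, ?_⟩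
    refine Prod.ext (Subtype.ext (Prod.ext rfl ?_)) rfl
    exact (sub_eq_zero.1 h2).symm
  · rintro ⟨z, rfl⟩
    have h := (mem_CC π (x ^ n) z.1).1 z.2
    apply Subtype.ext
    apply Prod.ext
    · exact h
    · change x • z.1.2 - x • z.1.2 = 0
      exact sub_self _

lemma ccTheta_surjective (π : F →ₗ[R] M) (hπ : Function.Surjective π) (x : R) (n : ℕ) :
    Function.Surjective (ccTheta π x n) := by
  intro z
  have hz := (mem_CC π x z.1).1 z.2
  obtain ⟨ψ, hψ⟩ := hπ z.1.1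
  refine ⟨(⟨(0, z.1.2 + x • ψ), (mem_CC π (x ^ (n + 1)) _).2 ?_⟩, ψ), ?_⟩
  · simp only [smul_zero, zero_add, map_add, map_smul, hψ]
    rw [add_comm]; exact hz
  · apply Subtype.ext
    apply Prod.ext
    · change x ^ n • (0 : M) + π ψ = z.1.1
      rw [smul_zero, zero_add, hψ]
    · change z.1.2 + x • ψ - x • ψ = z.1.2
      abel

/-- if `x` is in the stable annihilator of `M` then `M` is a retract of `C(x)` -/
lemma cc_retract (π : F →ₗ[R] M) (hπ : Function.Surjective π) (x : R) (h : SA M x) :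
    ∃ i : M →ₗ[R] CC π x, ccP π x ∘ₗ i = LinearMap.id := by
  obtain ⟨σ, hσ⟩ := lifts_of_sa π hπ h
  have hσ' : ∀ m, π (σ m) = x • m := fun m => LinearMap.congr_fun hσ m
  refine ⟨LinearMap.codRestrict (CC π x) (LinearMap.prod LinearMap.id (-σ))
    (fun y => by rw [mem_CC]; simp [hσ']), ?_⟩
  ext m
  rfl

end

end Pool.Agent.H.MP_4104ad_al
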